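import Pool.Agent.V11242.AV.Cont
import Pool.Agent.W910.FC.Collapse

/-!
# MP_24213f_lc: strongly versus totally avoiding continuum-dense sets

Martin's axiom for `ℵ₁` dense sets together with `𝔠 ≤ ℵ₂` can be forced, and it implies that there
are `𝔠`-dense sets which strongly avoid one another (a generalized Luzin set and a generalized
Sierpiński set), and that there are no `𝔠`-dense sets which totally avoid one another.

The forcing language is the one of `Pool.Agent.Helper669.Forcing`: a sentence is the set of the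
conditions which force it, `fnot`, `fand`, `fall` are the usual clauses of the definition of forcing
and `fimp`, `fex` are defined from them classically. The sentence `MartinHolds P X` is the
translation into the forcing language of the proposition `MartinFor X` (both are in
`Pool.Agent.W684.FM.Defs`), which is Martin's axiom for preorders with underlying set `X` and
`X`-indexed families of dense sets; `ContinuumLe P Y` says that in the extension there is a map
from `Y` onto the set of all functions from the natural numbers to themselves.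
-/

set_option autoImplicit false

namespace Pool.Agent.Results.MP_24213f_lc.StronglyNotTotally

open Cardinal Set Pool.Agent.Helper669.Forcing Pool.Agent.W684 Pool.Agent.W684.FM
open Pool.Agent.V11242.AV Pool.Agent.V11242.RN

/-- The set `A` is `κ`-dense: it meets every nonempty open set in a set of size `κ`. -/
def KDense (κ : Cardinal.{0}) (A : Set (ℕ → Bool)) : Prop :=
  ∀ U : Set (ℕ → Bool), IsOpen U → U.Nonempty → #(A ∩ U : Set (ℕ → Bool)) = κ

/-- `X` strongly avoids `Y`. -/
def StronglyAvoids (X Y : Set (ℕ → Bool)) : Prop :=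
  ∀ Z : Set (ℕ → Bool), Z ⊆ X → #Z = #X → ∀ f : Z → Y, Continuous f → #(range f) < #X

/-- `X` totally avoids `Y`. -/
def TotallyAvoids (X Y : Set (ℕ → Bool)) : Prop :=
  ∀ Z : Set (ℕ → Bool), Z ⊆ X → #Z = #X → ∀ f : Z → Y, Continuous f → (range f).Countable

theorem continuum_eq (hMA : MartinAxiomAleph1) (hc : (𝔠 : Cardinal.{0}) ≤ ℵ_ 2) :
    (𝔠 : Cardinal.{0}) = ℵ_ 2 := by
  refine le_antisymm hc ?_
  rw [← Pool.Agent.W910.Hull.succ_aleph1]
  exact Order.succ_le_of_lt (Pool.Agent.Y561.KS.aleph_one_lt_of_ma hMA)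

theorem kdense_of {W : Set (ℕ → Bool)} (hc : (𝔠 : Cardinal.{0}) = ℵ_ 2)
    (h : ∀ σ : List Bool, ℵ_ 2 ≤ #(W ∩ cyl σ : Set (ℕ → Bool))) : KDense 𝔠 W := by
  rintro U hU ⟨x, hx⟩
  refine le_antisymm ((mk_set_le _).trans (by simp)) ?_
  obtain ⟨n, hn⟩ := exists_seg_subset hU hx
  rw [hc]
  exact (h (seg x n)).trans (mk_le_mk_of_subset (inter_subset_inter_right W hn))

theorem KDense.card {W : Set (ℕ → Bool)} (h : KDense 𝔠 W) : #W = 𝔠 := by
  have := h Set.univ isOpen_univ univ_nonempty
  rwa [inter_univ] at this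

/-- extending a continuous map between subspaces -/
theorem exists_ext {Z Y : Set (ℕ → Bool)} (f : Z → Y) (hf : Continuous f) :
    ∃ g : (ℕ → Bool) → (ℕ → Bool), ContinuousOn g Z ∧ g '' Z ⊆ Y ∧ #(range f) = #(g '' Z) := by
  classical
  let g : (ℕ → Bool) → (ℕ → Bool) := fun z => if h : z ∈ Z then (f ⟨z, h⟩).1 else z
  have hg : ∀ z : Z, g z.1 = (f z).1 := fun z => by simp only [g, dif_pos z.2]
  refine ⟨g, ?_, ?_, ?_⟩
  · rw [continuousOn_iff_continuous_domRestrict]
    have h1 : Z.domRestrict g = fun z => (f z).1 := by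
      funext z
      exact hg z
    rw [h1]
    exact continuous_subtype_val.comp hf
  · rintro _ ⟨z, hz, rfl⟩
    rw [hg ⟨z, hz⟩]
    exact (f ⟨z, hz⟩).2
  · have h1 : g '' Z = Subtype.val '' range f := by
      ext w
      constructor
      · rintro ⟨z, hz, rfl⟩
        exact ⟨f ⟨z, hz⟩, ⟨_, rfl⟩, (hg ⟨z, hz⟩).symm⟩
      · rintro ⟨_, ⟨z, rfl⟩, rfl⟩
        exact ⟨z.1, z.2, hg z⟩
    rw [h1, mk_image_eq Subtype.val_injective]

theorem exists_strong (hMA : MartinAxiomAleph1) (hc : (𝔠 : Cardinal.{0}) ≤ ℵ_ 2) :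
    ∃ X Y : Set (ℕ → Bool), KDense 𝔠 X ∧ KDense 𝔠 Y ∧ StronglyAvoids X Y ∧
      StronglyAvoids Y X := by
  have hceq := continuum_eq hMA hc
  obtain ⟨X, hX1, hX2⟩ := exists_luzin hMA hc
  obtain ⟨Y, hY1, hY2⟩ := exists_sierpinski hMA hc
  have hXd := kdense_of hceq hX1
  have hYd := kdense_of hceq hY1
  refine ⟨X, Y, hXd, hYd, ?_, ?_⟩
  · intro Z hZ _ f hf
    obtain ⟨g, hg1, hg2, hg3⟩ := exists_ext f hf
    rw [hg3, hXd.card]
    exact (image_le_of_luzin hX2 hY2 hZ hg1 hg2).trans_lt
      (Pool.Agent.Y561.KS.aleph_one_lt_of_ma hMA)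
  · intro Z hZ _ f hf
    obtain ⟨g, hg1, hg2, hg3⟩ := exists_ext f hf
    rw [hg3, hYd.card]
    exact (image_le_of_sierpinski hX2 hY2 hZ hg1 hg2).trans_lt
      (Pool.Agent.Y561.KS.aleph_one_lt_of_ma hMA)

theorem not_totally (hMA : MartinAxiomAleph1) {X Y : Set (ℕ → Bool)} (hX : KDense 𝔠 X)
    (hY : KDense 𝔠 Y) : ¬ TotallyAvoids X Y := by
  classical
  intro htot
  have hlt := Pool.Agent.Y561.KS.aleph_one_lt_of_ma hMA
  have hOm : #Om1 = ℵ₁ := Cardinal.mk_ord_toType _
  -- `ℵ₁` points of `X` in one clopen half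
  obtain ⟨ex⟩ : #Om1 ≤ #(X ∩ cyl [false] : Set (ℕ → Bool)) := by
    rw [hOm, hX _ (isOpen_cyl _) (cyl_nonempty _)]
    exact hlt.le
  obtain ⟨ey⟩ : #Om1 ≤ #Y := by
    rw [hOm, hY.card]
    exact hlt.le
  let x : Om1 → (ℕ → Bool) := fun a => (ex a).1
  let y : Om1 → (ℕ → Bool) := fun a => (ey a).1
  have hx : Function.Injective x := Subtype.val_injective.comp ex.injective
  have hy : Function.Injective y := Subtype.val_injective.comp ey.injective
  obtain ⟨A, hA, hcont⟩ := exists_continuous (x := x) (y := y) hMA hx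
  have hAne : A.Nonempty := by
    rw [Set.nonempty_iff_ne_empty]
    rintro rfl
    exact hA countable_empty
  obtain ⟨a₀, ha₀⟩ := hAne
  have hx0 : ∀ a, x a 0 = false := fun a => (ex a).2.2 0 (by simp)
  -- the subset and the map
  let Z : Set (ℕ → Bool) := x '' A ∪ (X ∩ cyl [true])
  have hZX : Z ⊆ X := by
    rintro z (⟨a, _, rfl⟩ | hz)
    · exact (ex a).2.1
    · exact hz.1
  have hZcard : #Z = #X := by
    refine le_antisymm (mk_le_mk_of_subset hZX) ?_
    rw [hX.card, ← hX _ (isOpen_cyl [true]) (cyl_nonempty _)]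
    exact mk_le_mk_of_subset subset_union_right
  let g : (ℕ → Bool) → (ℕ → Bool) := fun z =>
    if h : ∃ a ∈ A, x a = z then y h.choose else y a₀
  have hgx : ∀ a ∈ A, g (x a) = y a := by
    intro a ha
    have h : ∃ b ∈ A, x b = x a := ⟨a, ha, rfl⟩
    simp only [g, dif_pos h]
    rw [hx h.choose_spec.2]
  have hg1 : ∀ z, z 0 = true → g z = y a₀ := by
    intro z hz
    have h : ¬ ∃ a ∈ A, x a = z := by
      rintro ⟨a, _, rfl⟩
      rw [hx0] at hz
      cases hz
    simp only [g, dif_neg h]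
  have hgY : ∀ z, g z ∈ Y := by
    intro z
    by_cases h : ∃ a ∈ A, x a = z
    · simp only [g, dif_pos h]
      exact (ey _).2
    · simp only [g, dif_neg h]
      exact (ey _).2
  have hgc : ContinuousOn g Z := by
    intro z hz
    rw [ContinuousWithinAt, tendsto_pi_nhds]
    intro n
    refine Filter.Tendsto.congr' (f₁ := fun _ => g z n) ?_ tendsto_const_nhds
    rcases hz with ⟨a, ha, rfl⟩ | hz
    · obtain ⟨m, hm⟩ := hcont a ha (n + 1)
      have hopen : cyl (seg (x a) (m + 1)) ∈ nhdsWithin (x a) Z :=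
        mem_nhdsWithin_of_mem_nhds ((isOpen_cyl _).mem_nhds (mem_cyl_seg.mpr fun _ _ => rfl))
      filter_upwards [hopen, self_mem_nhdsWithin] with w hw hwZ
      have hw' := mem_cyl_seg.mp hw
      rcases hwZ with ⟨b, hb, rfl⟩ | hwX
      · rw [hgx a ha, hgx b hb]
        exact (hm b hb (fun i hi => hw' i (by omega)) n (Nat.lt_succ_self n)).symm
      · exfalso
        have h1 := hwX.2 0 (by simp)
        have h2 := hw' 0 (by omega)
        rw [hx0] at h2
        rw [h2] at h1
        simp at h1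
    · have hz0 : z 0 = true := hz.2 0 (by simp)
      have hopen : cyl (seg z 1) ∈ nhdsWithin z Z :=
        mem_nhdsWithin_of_mem_nhds ((isOpen_cyl _).mem_nhds (mem_cyl_seg.mpr fun _ _ => rfl))
      filter_upwards [hopen] with w hw
      have hw' := mem_cyl_seg.mp hw 0 (by omega)
      rw [hg1 z hz0, hg1 w (by rw [hw', hz0])]
  have hfin := htot Z hZX hZcard (fun z => ⟨g z.1, hgY z.1⟩) (by
    refine Continuous.subtype_mk ?_ _
    rw [continuousOn_iff_continuous_domRestrict] at hgc
    exact hgc)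
  apply hA
  have h1 : (y '' A).Countable := by
    refine (hfin.image Subtype.val).mono ?_
    rintro _ ⟨a, ha, rfl⟩
    refine ⟨⟨g (x a), hgY _⟩, ⟨⟨x a, Or.inl ⟨a, ha, rfl⟩⟩, rfl⟩, hgx a ha⟩
  exact countable_of_injective_of_countable_image hy.injOn h1

/-- (1) There is a preordered set `P` of forcing conditions such that every condition forces that
`ω₁` is preserved, that Martin's axiom for `ℵ₁` dense sets holds and that the continuum is at most
`ℵ₂`; (2), (3) the plain forms of the latter two sentences. (4) These two sentences imply that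
there are `𝔠`-dense sets `X`, `Y` which strongly avoid one another, and that there are no `𝔠`-dense
sets which totally avoid one another. -/
theorem result :
    (∃ (P : Type) (_ : Preorder P), Nonempty P ∧ ∀ p : P,
      p ∈ OmegaOnePreserved P ∧ p ∈ MartinHolds P Om1 ∧
        p ∈ ContinuumLe P (ℵ_ 2 : Cardinal.{0}).out) ∧
    (MartinFor Om1 ↔ MartinAxiomAleph1) ∧
    ((∃ E : (ℵ_ 2 : Cardinal.{0}).out → ℕ → ℕ, Function.Surjective E) ↔
      (𝔠 : Cardinal.{0}) ≤ ℵ_ 2) ∧
    (MartinAxiomAleph1 → (𝔠 : Cardinal.{0}) ≤ ℵ_ 2 →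
      (∃ X Y : Set (ℕ → Bool), KDense 𝔠 X ∧ KDense 𝔠 Y ∧ StronglyAvoids X Y ∧
        StronglyAvoids Y X) ∧
      ¬ ∃ X Y : Set (ℕ → Bool), KDense 𝔠 X ∧ KDense 𝔠 Y ∧ TotallyAvoids X Y ∧
        TotallyAvoids Y X) := by
  refine ⟨Pool.Agent.W910.FC.exists_forcing, martinFor_om1_iff, ?_, fun hMA hc =>
    ⟨exists_strong hMA hc, ?_⟩⟩
  · have h1 : #(ℕ → ℕ) = (𝔠 : Cardinal.{0}) := by
      simp
    constructor
    · rintro ⟨E, hE⟩
      have h2 := mk_le_of_surjective hE
      rwa [h1, mk_out] at h2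
    · intro h
      rw [← h1, ← mk_out (ℵ_ 2)] at h
      obtain ⟨e⟩ := h
      exact ⟨Function.invFun e, Function.invFun_surjective e.injective⟩
  · rintro ⟨X, Y, hX, hY, hXY, _⟩
    exact not_totally hMA hX hY hXY

end Pool.Agent.Results.MP_24213f_lc.StronglyNotTotally
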